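import Mathlib

/-!
# MP_1fca17_co, topological bridge: arcs, balls and links

Finitely many Jordan arcs in the plane that meet only in a finite set `Z`: small disjoint balls
around the points of `Z` and disjoint compact connected pieces of the arcs between them.
-/

namespace Pool.Agent.Lib.MP_1fca17_co.TOP

open Set Metric

noncomputable section

/-- `s` and `t` are consecutive parameters of points of `Z` on the arc `g` -/
def Gap (g : ℝ → ℝ × ℝ) (Z : Set (ℝ × ℝ)) (s t : ℝ) : Prop :=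
  s ∈ Icc (0 : ℝ) 1 ∧ t ∈ Icc (0 : ℝ) 1 ∧ s < t ∧ g s ∈ Z ∧ g t ∈ Z ∧
    ∀ u ∈ Icc (0 : ℝ) 1, g u ∈ Z → u ≤ s ∨ t ≤ u

/-- the parameters of the points of `Z` on the arc -/
def pars (g : ℝ → ℝ × ℝ) (Z : Set (ℝ × ℝ)) : Set ℝ := {t | t ∈ Icc (0 : ℝ) 1 ∧ g t ∈ Z}

theorem pars_finite {g : ℝ → ℝ × ℝ} {Z : Set (ℝ × ℝ)} (hi : InjOn g (Icc 0 1))
    (hZ : Z.Finite) : (pars g Z).Finite := by
  refine Finite.of_finite_image (f := g) (hZ.subset ?_) ?_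
  · rintro x ⟨t, ht, rfl⟩
    exact ht.2
  · exact hi.mono fun t ht => ht.1

/-- the finite set of the gaps of an arc -/
theorem gaps_finite {g : ℝ → ℝ × ℝ} {Z : Set (ℝ × ℝ)} (hi : InjOn g (Icc 0 1))
    (hZ : Z.Finite) : {p : ℝ × ℝ | Gap g Z p.1 p.2}.Finite := by
  refine ((pars_finite hi hZ).prod (pars_finite hi hZ)).subset ?_
  rintro ⟨s, t⟩ h
  exact ⟨⟨h.1, h.2.2.2.1⟩, h.2.1, h.2.2.2.2.1⟩

/-- one radius for finitely many compact sets and points off them -/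
theorem exists_radius {ι : Type*} [Finite ι] (C : ι → Set (ℝ × ℝ)) (x : ι → ℝ × ℝ)
    (hC : ∀ i, IsCompact (C i)) (hx : ∀ i, x i ∉ C i) :
    ∃ r : ℝ, 0 < r ∧ ∀ r' ≤ r, ∀ i, Disjoint (C i) (closedBall (x i) r') := by
  have h1 : ∀ i, ∃ r : ℝ, 0 < r ∧ Disjoint (C i) (closedBall (x i) r) := by
    intro i
    have h2 : (C i)ᶜ ∈ nhds (x i) := (hC i).isClosed.isOpen_compl.mem_nhds (hx i)
    obtain ⟨r, hr, h3⟩ := nhds_basis_closedBall.mem_iff.1 h2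
    exact ⟨r, hr, Set.disjoint_left.2 fun y hy h4 => h3 h4 hy⟩
  choose r hr hd using h1
  cases nonempty_fintype ι
  by_cases hne : Nonempty ι
  · obtain ⟨i₀, -, h0⟩ := Finset.exists_min_image Finset.univ r Finset.univ_nonempty
    refine ⟨r i₀, hr i₀, fun r' hr' i => (hd i).mono_right (closedBall_subset_closedBall ?_)⟩
    exact hr'.trans (h0 i (Finset.mem_univ i))
  · exact ⟨1, one_pos, fun r' _ i => (hne ⟨i⟩).elim⟩

/-- the piece of an arc between two consecutive points -/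
theorem exists_piece {g : ℝ → ℝ × ℝ} (hc : ContinuousOn g (Icc 0 1)) {s t r : ℝ}
    (hs : s ∈ Icc (0 : ℝ) 1) (ht : t ∈ Icc (0 : ℝ) 1) (hst : s < t) (hr : 0 < r) :
    ∃ a b, s < a ∧ a ≤ b ∧ b < t ∧ g a ∈ closedBall (g s) r ∧ g b ∈ closedBall (g t) r := by
  have hsub : Icc s t ⊆ Icc (0 : ℝ) 1 := Icc_subset_Icc hs.1 ht.2
  have hc' := hc.mono hsub
  obtain ⟨d, hd, h1⟩ := Metric.continuousOn_iff.1 hc' s (left_mem_Icc.2 hst.le) r hr
  obtain ⟨d', hd', h2⟩ := Metric.continuousOn_iff.1 hc' t (right_mem_Icc.2 hst.le) r hr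
  refine ⟨s + min (d / 2) ((t - s) / 2), t - min (d' / 2) ((t - s) / 2), ?_, ?_, ?_, ?_, ?_⟩
  · have : 0 < min (d / 2) ((t - s) / 2) := lt_min (by linarith) (by linarith)
    linarith
  · have := min_le_right (d / 2) ((t - s) / 2)
    have := min_le_right (d' / 2) ((t - s) / 2)
    linarith
  · have : 0 < min (d' / 2) ((t - s) / 2) := lt_min (by linarith) (by linarith)
    linarith
  · have h3 : 0 < min (d / 2) ((t - s) / 2) := lt_min (by linarith) (by linarith)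
    have h4 := min_le_left (d / 2) ((t - s) / 2)
    have h5 := min_le_right (d / 2) ((t - s) / 2)
    refine mem_closedBall.2 (h1 _ ⟨by linarith, by linarith⟩ ?_).le
    rw [Real.dist_eq, add_sub_cancel_left, abs_of_pos h3]
    linarith
  · have h3 : 0 < min (d' / 2) ((t - s) / 2) := lt_min (by linarith) (by linarith)
    have h4 := min_le_left (d' / 2) ((t - s) / 2)
    have h5 := min_le_right (d' / 2) ((t - s) / 2)
    refine mem_closedBall.2 (h2 _ ⟨by linarith, by linarith⟩ ?_).le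
    rw [Real.dist_eq, sub_sub_cancel_left, abs_neg, abs_of_pos h3]
    linarith

/-- ARCS -/
theorem arcs {E : Type*} [Finite E] (g : E → ℝ → ℝ × ℝ)
    (hc : ∀ e, ContinuousOn (g e) (Icc 0 1)) (hi : ∀ e, InjOn (g e) (Icc 0 1))
    (Z : Set (ℝ × ℝ)) (hZf : Z.Finite)
    (hZ : ∀ e f, e ≠ f → ∀ s ∈ Icc (0 : ℝ) 1, ∀ t ∈ Icc (0 : ℝ) 1, g e s = g f t → g e s ∈ Z) :
    ∃ (r : ℝ) (K : E → ℝ → ℝ → Set (ℝ × ℝ)), 0 < r ∧
      (∀ x ∈ Z, ∀ y ∈ Z, x ≠ y → Disjoint (closedBall x r) (closedBall y r)) ∧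
      (∀ e s t, Gap (g e) Z s t → IsCompact (K e s t) ∧ IsPreconnected (K e s t) ∧
        (K e s t ∩ closedBall (g e s) r).Nonempty ∧ (K e s t ∩ closedBall (g e t) r).Nonempty ∧
        ∀ z ∈ Z, z ≠ g e s → z ≠ g e t → Disjoint (K e s t) (closedBall z r)) ∧
      (∀ e s t f s' t', Gap (g e) Z s t → Gap (g f) Z s' t' →
        (e ≠ f ∨ s ≠ s') → Disjoint (K e s t) (K f s' t')) := by
  -- the radius
  let I₁ := {p : (ℝ × ℝ) × (ℝ × ℝ) // p.1 ∈ Z ∧ p.2 ∈ Z ∧ p.1 ≠ p.2}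
  have hI₁ : Finite I₁ := by
    refine ((hZf.prod hZf).subset ?_ : Set.Finite {p : (ℝ × ℝ) × (ℝ × ℝ) |
      p.1 ∈ Z ∧ p.2 ∈ Z ∧ p.1 ≠ p.2}).to_subtype
    exact fun p hp => ⟨hp.1, hp.2.1⟩
  let I₂ := {q : E × (ℝ × ℝ) × (ℝ × ℝ) // Gap (g q.1) Z q.2.1.1 q.2.1.2 ∧ q.2.2 ∈ Z ∧
    q.2.2 ≠ g q.1 q.2.1.1 ∧ q.2.2 ≠ g q.1 q.2.1.2}
  have hI₂ : Finite I₂ := by
    have h1 : Set.Finite (⋃ e : E, (fun p : (ℝ × ℝ) × (ℝ × ℝ) => (e, p)) ''
        ({p : ℝ × ℝ | Gap (g e) Z p.1 p.2} ×ˢ Z)) :=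
      Set.finite_iUnion fun e => ((gaps_finite (hi e) hZf).prod hZf).image _
    refine (h1.subset ?_ : Set.Finite {q : E × (ℝ × ℝ) × (ℝ × ℝ) |
      Gap (g q.1) Z q.2.1.1 q.2.1.2 ∧ q.2.2 ∈ Z ∧
      q.2.2 ≠ g q.1 q.2.1.1 ∧ q.2.2 ≠ g q.1 q.2.1.2}).to_subtype
    rintro ⟨e, p⟩ hq
    exact mem_iUnion.2 ⟨e, p, ⟨hq.1, hq.2.1⟩, rfl⟩
  obtain ⟨r₁, hr₁, h₁⟩ : ∃ r : ℝ, 0 < r ∧ ∀ r' ≤ r, ∀ i : I₁,
      Disjoint ({i.1.1} : Set (ℝ × ℝ)) (closedBall i.1.2 r') :=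
    exists_radius (fun i : I₁ => ({i.1.1} : Set (ℝ × ℝ))) (fun i => i.1.2)
      (fun i => isCompact_singleton) (fun i h => i.2.2.2 h.symm)
  obtain ⟨r₂, hr₂, h₂⟩ : ∃ r : ℝ, 0 < r ∧ ∀ r' ≤ r, ∀ i : I₂,
      Disjoint (g i.1.1 '' Icc i.1.2.1.1 i.1.2.1.2) (closedBall i.1.2.2 r') := by
    refine exists_radius (fun i : I₂ => g i.1.1 '' Icc i.1.2.1.1 i.1.2.1.2)
      (fun i => i.1.2.2) (fun i => ?_) (fun i => ?_)
    · have hg := i.2.1
      exact isCompact_Icc.image_of_continuousOn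
        ((hc _).mono (Icc_subset_Icc hg.1.1 hg.2.1.2))
    · rintro ⟨u, hu, h⟩
      have hg := i.2.1
      have hu' : u ∈ Icc (0 : ℝ) 1 := ⟨hg.1.1.trans hu.1, hu.2.trans hg.2.1.2⟩
      rcases hg.2.2.2.2.2 u hu' (by rw [h]; exact i.2.2.1) with h3 | h3
      · exact i.2.2.2.1 (by rw [← h, le_antisymm h3 hu.1])
      · exact i.2.2.2.2 (by rw [← h, le_antisymm hu.2 h3])
  set r := min r₂ (r₁ / 3) with hr_def
  have hr : 0 < r := lt_min hr₂ (by linarith)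
  have hrr₂ : r ≤ r₂ := min_le_left _ _
  have hrr₁ : r ≤ r₁ / 3 := min_le_right _ _
  -- the pieces
  have hp : ∀ e s t, ∃ a b, Gap (g e) Z s t →
      s < a ∧ a ≤ b ∧ b < t ∧ g e a ∈ closedBall (g e s) r ∧ g e b ∈ closedBall (g e t) r := by
    intro e s t
    by_cases h : Gap (g e) Z s t
    · obtain ⟨a, b, h1⟩ := exists_piece (hc e) h.1 h.2.1 h.2.2.1 hr
      exact ⟨a, b, fun _ => h1⟩
    · exact ⟨0, 0, fun h' => (h h').elim⟩
  choose a b hab using hp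
  refine ⟨r, fun e s t => g e '' Icc (a e s t) (b e s t), hr, ?_, ?_, ?_⟩
  · intro x hx y hy hxy
    refine closedBall_disjoint_closedBall ?_
    have h3 := h₁ r₁ le_rfl ⟨(x, y), hx, hy, hxy⟩
    rw [Set.disjoint_singleton_left, mem_closedBall, not_le] at h3
    simp only at h3
    linarith
  · intro e s t h
    obtain ⟨h1, h2, h3, h4, h5⟩ := hab e s t h
    have hsub : Icc (a e s t) (b e s t) ⊆ Icc (0 : ℝ) 1 :=
      Icc_subset_Icc (h.1.1.trans h1.le) (h3.le.trans h.2.1.2)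
    refine ⟨isCompact_Icc.image_of_continuousOn ((hc e).mono hsub),
      isPreconnected_Icc.image _ ((hc e).mono hsub), ⟨g e (a e s t), ⟨_, left_mem_Icc.2 h2, rfl⟩,
      h4⟩, ⟨g e (b e s t), ⟨_, right_mem_Icc.2 h2, rfl⟩, h5⟩, ?_⟩
    intro z hz hz1 hz2
    refine (h₂ r hrr₂ ⟨(e, (s, t), z), h, hz, hz1, hz2⟩).mono_left ?_
    exact image_mono (Icc_subset_Icc h1.le h3.le)
  · intro e s t f s' t' h h' hne
    obtain ⟨h1, h2, h3, h4, h5⟩ := hab e s t h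
    obtain ⟨h1', h2', h3', h4', h5'⟩ := hab f s' t' h'
    rw [Set.disjoint_left]
    rintro _ ⟨u, hu, rfl⟩ ⟨u', hu', h6⟩
    have hu0 : u ∈ Icc (0 : ℝ) 1 :=
      ⟨h.1.1.trans (h1.le.trans hu.1), (hu.2.trans h3.le).trans h.2.1.2⟩
    have hu0' : u' ∈ Icc (0 : ℝ) 1 :=
      ⟨h'.1.1.trans (h1'.le.trans hu'.1), (hu'.2.trans h3'.le).trans h'.2.1.2⟩
    by_cases hef : e = f
    · subst hef
      have h7 : u' = u := hi e hu0' hu0 h6
      subst h7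
      have hss : s ≠ s' := by
        rcases hne with h8 | h8
        · exact (h8 rfl).elim
        · exact h8
      rcases h.2.2.2.2.2 s' h'.1 h'.2.2.2.1 with h8 | h8
      · rcases h'.2.2.2.2.2 s h.1 h.2.2.2.1 with h9 | h9
        · exact hss (le_antisymm h9 h8)
        · linarith [hu.1, hu'.2]
      · linarith [hu.2, hu'.1]
    · have h7 : g e u ∈ Z := hZ e f hef u hu0 u' hu0' h6.symm
      rcases h.2.2.2.2.2 u hu0 h7 with h8 | h8
      · linarith [hu.1]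
      · linarith [hu.2]

end

end Pool.Agent.Lib.MP_1fca17_co.TOP
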