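import Mathlib
import Pool.Agent.Lib.MP_1fca17_co.Q.Defs

/-!
# MP_1fca17_co : contraction of connected sets of vertices in a plane map (helper7)
-/

namespace Pool.Agent.Lib.MP_1fca17_co.TOP.Contract7

set_option linter.unusedSectionVars false

open Finset
open scoped Classical
open Pool.Agent.Lib.MP_1fca17_co.Q

noncomputable section

variable {D : Type} [Fintype D]

open Equiv Equiv.Perm

/-- a relation that is an equivalence and contains the steps of `τ` contains `SameCycle τ` -/
lemma sameCycle_le (τ : Equiv.Perm D) (R : D → D → Prop) (hr : ∀ u, R u u)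
    (hs : ∀ u v, R u v → R v u) (ht : ∀ u v w, R u v → R v w → R u w)
    (h : ∀ u, R u (τ u)) {u v : D} (huv : SameCycle τ u v) : R u v := by
  obtain ⟨i, rfl⟩ := huv
  induction i using Int.induction_on with
  | zero => simpa using hr u
  | succ n ih =>
    refine ht _ _ _ ih ?_
    have : (τ ^ ((n : ℤ) + 1)) u = τ ((τ ^ (n : ℤ)) u) := by
      rw [← Equiv.Perm.mul_apply, ← zpow_one_add, add_comm]
    rw [this]
    exact h _
  | pred n ih =>
    refine ht _ _ _ ih ?_
    have : τ ((τ ^ (-(n : ℤ) - 1)) u) = (τ ^ (-(n : ℤ))) u := by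
      rw [← Equiv.Perm.mul_apply, ← zpow_one_add]
      congr 2
      ring
    have h2 := h ((τ ^ (-(n : ℤ) - 1)) u)
    rw [this] at h2
    exact hs _ _ h2

lemma sc_swap (π : Equiv.Perm D) {a b : D} (hab : ¬ SameCycle π a b) :
    SameCycle (swap a b * π) b a := by
  have hex : ∃ k : ℕ, 0 < k ∧ (π ^ k) b = b :=
    ⟨orderOf π, orderOf_pos π, by rw [pow_orderOf_eq_one]; rfl⟩
  obtain ⟨hk0, hk⟩ := Nat.find_spec hex
  set k := Nat.find hex with hkdef
  have hmin : ∀ i, 0 < i → i < k → (π ^ i) b ≠ b := by
    intro i h0 h1 h2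
    exact Nat.find_min hex h1 ⟨h0, h2⟩
  have hne : ∀ i : ℕ, (π ^ i) b ≠ a := by
    intro i hi
    exact hab (SameCycle.symm ⟨(i : ℤ), by rw [zpow_natCast]; exact hi⟩)
  have hstep : ∀ i, i < k → ((swap a b * π) ^ i) b = (π ^ i) b := by
    intro i
    induction i with
    | zero => intro _; simp
    | succ i ih =>
      intro hi
      rw [pow_succ', Equiv.Perm.mul_apply, ih (by omega), Equiv.Perm.mul_apply,
        ← Equiv.Perm.mul_apply π, ← pow_succ']
      exact swap_apply_of_ne_of_ne (hne _) (hmin _ (by omega) hi)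
  refine ⟨(k : ℤ), ?_⟩
  rw [zpow_natCast]
  obtain ⟨j, hj⟩ : ∃ j, k = j + 1 := ⟨k - 1, by omega⟩
  rw [hj, pow_succ', Equiv.Perm.mul_apply, hstep j (by omega), Equiv.Perm.mul_apply,
    ← Equiv.Perm.mul_apply π, ← pow_succ', ← hj, hk]
  exact swap_apply_right a b

/-- merging two cycles -/
lemma merge (π : Equiv.Perm D) {a b : D} (hab : ¬ SameCycle π a b) (u v : D) :
    SameCycle (swap a b * π) u v ↔ SameCycle π u v ∨
      ((SameCycle π u a ∨ SameCycle π u b) ∧ (SameCycle π v a ∨ SameCycle π v b)) := by
  constructor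
  · intro h
    refine sameCycle_le (swap a b * π) (fun u v => SameCycle π u v ∨
      ((SameCycle π u a ∨ SameCycle π u b) ∧ (SameCycle π v a ∨ SameCycle π v b)))
      (fun u => Or.inl (SameCycle.refl π u)) ?_ ?_ ?_ h
    · rintro u v (h | ⟨h1, h2⟩)
      · exact Or.inl h.symm
      · exact Or.inr ⟨h2, h1⟩
    · rintro u v w (h | ⟨h1, h2⟩) (h' | ⟨h3, h4⟩)
      · exact Or.inl (h.trans h')
      · exact Or.inr ⟨h3.imp (fun x => h.trans x) (fun x => h.trans x), h4⟩
      · exact Or.inr ⟨h1, h2.imp (fun x => h'.symm.trans x) (fun x => h'.symm.trans x)⟩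
      · exact Or.inr ⟨h1, h4⟩
    · intro u
      have hu : SameCycle π u (π u) := sameCycle_apply_right.2 (SameCycle.refl π u)
      rw [Equiv.Perm.mul_apply]
      by_cases ha : π u = a
      · rw [ha, swap_apply_left]
        exact Or.inr ⟨Or.inl (ha ▸ hu), Or.inr (SameCycle.refl π b)⟩
      · by_cases hb : π u = b
        · rw [hb, swap_apply_right]
          exact Or.inr ⟨Or.inr (hb ▸ hu), Or.inl (SameCycle.refl π a)⟩
        · rw [swap_apply_of_ne_of_ne ha hb]
          exact Or.inl hu
  · have hba : SameCycle (swap a b * π) b a := sc_swap π hab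
    have key : ∀ u v, SameCycle π u v → SameCycle (swap a b * π) u v := by
      intro u v h
      refine sameCycle_le π (fun u v => SameCycle (swap a b * π) u v)
        (fun u => SameCycle.refl _ u) (fun u v h => h.symm) (fun u v w h h' => h.trans h') ?_ h
      intro u
      have hu : SameCycle (swap a b * π) u ((swap a b * π) u) :=
        sameCycle_apply_right.2 (SameCycle.refl _ u)
      rw [Equiv.Perm.mul_apply] at hu
      by_cases ha : π u = a
      · rw [ha, swap_apply_left] at hu
        rw [ha]
        exact hu.trans hba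
      · by_cases hb : π u = b
        · rw [hb, swap_apply_right] at hu
          rw [hb]
          exact hu.trans hba.symm
        · rw [swap_apply_of_ne_of_ne ha hb] at hu
          exact hu
    rintro (h | ⟨h1, h2⟩)
    · exact key _ _ h
    · have h3 : ∀ w, (SameCycle π w a ∨ SameCycle π w b) → SameCycle (swap a b * π) w a := by
        rintro w (h | h)
        · exact key _ _ h
        · exact (key _ _ h).trans hba
      exact (h3 u h1).trans (h3 v h2).symm

/-- the number of cycles after merging -/
lemma card_merge (π : Equiv.Perm D) {a b : D} (hab : ¬ SameCycle π a b) :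
    Nat.card (Quotient (SameCycle.setoid π)) =
      Nat.card (Quotient (SameCycle.setoid (swap a b * π))) + 1 := by
  have : Finite (Quotient (SameCycle.setoid (swap a b * π))) := inferInstance
  rw [← Finite.card_option]
  have hm := merge π hab
  let f : D → Option (Quotient (SameCycle.setoid (swap a b * π))) := fun u =>
    if SameCycle π u b then none else some (Quotient.mk _ u)
  have hf : ∀ u v, SameCycle π u v ↔ f u = f v := by
    intro u v
    by_cases hu : SameCycle π u b
    · by_cases hv : SameCycle π v b
      · simp only [f, hu, hv, if_true, iff_true]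
        exact hu.trans hv.symm
      · simp only [f, hu, hv, if_true, if_false, reduceCtorEq, iff_false]
        intro h
        exact hv (h.symm.trans hu)
    · by_cases hv : SameCycle π v b
      · simp only [f, hu, hv, if_true, if_false, reduceCtorEq, iff_false]
        intro h
        exact hu (h.trans hv)
      · simp only [f, hu, hv, if_false, Option.some.injEq]
        constructor
        · intro h
          exact Quotient.sound ((hm u v).2 (Or.inl h))
        · intro h
          have h1 : SameCycle (swap a b * π) u v := Quotient.exact h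
          rcases (hm u v).1 h1 with h | ⟨h1, h2⟩
          · exact h
          · have h3 := h1.resolve_right hu
            have h4 := h2.resolve_right hv
            exact h3.trans h4.symm
  refine Nat.card_congr (Equiv.ofBijective
    (Quotient.lift f (fun u v h => (hf u v).1 h)) ⟨?_, ?_⟩)
  · rintro ⟨u⟩ ⟨v⟩ h
    exact Quotient.sound ((hf u v).2 h)
  · rintro (_ | ⟨⟨u⟩⟩)
    · exact ⟨Quotient.mk _ b, by
        change f b = none
        simp only [f, SameCycle.refl, if_true]⟩
    · by_cases hu : SameCycle π u b
      · refine ⟨Quotient.mk _ a, ?_⟩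
        change f a = _
        simp only [f, hab, if_false]
        congr 1
        exact Quotient.sound ((hm a u).2 (Or.inr ⟨Or.inl (SameCycle.refl _ _), Or.inr hu⟩))
      · refine ⟨Quotient.mk _ u, ?_⟩
        change f u = _
        simp only [f, hu, if_false]
        rfl

variable {X : Type} [Fintype X]

/-- relabelling of the vertices -/
lemma relabel (M : PlaneMap X D) {Y : Type} [Fintype Y] (q : X → Y)
    (hq : Function.Bijective q) :
    ∃ M' : PlaneMap Y D, M'.vert = q ∘ M.vert ∧ M'.α = M.α := by
  refine ⟨⟨q ∘ M.vert, M.σ, M.α, M.invol, M.nofix, hq.2.comp M.surj, ?_, ?_, ?_⟩, rfl, rfl⟩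
  · intro d d'
    rw [← M.orbit]
    exact hq.1.eq_iff
  · intro x y
    obtain ⟨x, rfl⟩ := hq.2 x
    obtain ⟨y, rfl⟩ := hq.2 y
    have h := M.conn x y
    induction h with
    | refl => exact Relation.ReflTransGen.refl
    | tail _ h2 ih =>
      obtain ⟨d, rfl, rfl⟩ := h2
      exact Relation.ReflTransGen.tail ih ⟨d, rfl, rfl⟩
  · rw [← Fintype.card_of_bijective hq]
    exact M.euler

/-- identification of two adjacent vertices -/
lemma step (M : PlaneMap X D) {Y : Type} [Fintype Y] (q : X → Y)
    (hq : Function.Surjective q) {x y : X} (hxy : x ≠ y) (hadj : M.Adj x y) (hqxy : q x = q y)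
    (hinj : ∀ u v, q u = q v → u = v ∨ ((u = x ∨ u = y) ∧ (v = x ∨ v = y))) :
    ∃ M' : PlaneMap Y D, M'.vert = q ∘ M.vert ∧ M'.α = M.α := by
  obtain ⟨d, hd1, hd2⟩ := hadj
  set e : D := (M.σ * M.α) d with he
  have hve : M.vert e = y := by
    rw [← hd2]
    exact ((M.orbit _ _).2 (sameCycle_apply_right.2 (SameCycle.refl _ _))).symm
  have hde : d ≠ e := by
    rintro h
    apply hxy
    rw [← hd1, ← hve, ← h]
  have hns : ¬ SameCycle M.σ d e := by
    rw [← M.orbit, hd1, hve]
    exact hxy
  have hm := merge M.σ hns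
  -- the new faces
  have hfix : (swap d e * (M.σ * M.α)) d = d := by
    rw [Equiv.Perm.mul_apply, ← he, swap_apply_right]
  have hns2 : ¬ SameCycle (swap d e * (M.σ * M.α)) d e := by
    rintro ⟨i, hi⟩
    rw [zpow_apply_eq_self_of_apply_eq_self hfix] at hi
    exact hde hi
  have hcard := card_merge (swap d e * (M.σ * M.α)) hns2
  have hback : swap d e * (swap d e * (M.σ * M.α)) = M.σ * M.α := by
    rw [← mul_assoc, swap_mul_self, one_mul]
  rw [hback] at hcard
  have hcY : Fintype.card X = Fintype.card Y + 1 := by
    have : Fintype.card X = Fintype.card (Option Y) := by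
      let f : X → Option Y := fun u => if u = y then none else some (q u)
      refine Fintype.card_of_bijective (f := f) ⟨?_, ?_⟩
      · intro u v huv
        by_cases hu : u = y
        · by_cases hv : v = y
          · rw [hu, hv]
          · simp [f, hu, hv] at huv
        · by_cases hv : v = y
          · simp [f, hu, hv] at huv
          · simp only [f, hu, hv, if_false, Option.some.injEq] at huv
            rcases hinj u v huv with h | ⟨h1, h2⟩
            · exact h
            · rw [h1.resolve_right hu, h2.resolve_right hv]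
      · rintro (_ | z)
        · exact ⟨y, by simp [f]⟩
        · obtain ⟨u, rfl⟩ := hq z
          by_cases hu : u = y
          · exact ⟨x, by simp [f, hxy, hu, hqxy]⟩
          · exact ⟨u, by simp [f, hu]⟩
    rw [this, Fintype.card_option]
  refine ⟨⟨q ∘ M.vert, swap d e * M.σ, M.α, M.invol, M.nofix, hq.comp M.surj, ?_, ?_, ?_⟩,
    rfl, rfl⟩
  · intro u v
    rw [hm u v, ← M.orbit, ← M.orbit, ← M.orbit, ← M.orbit, ← M.orbit, hd1, hve]
    constructor
    · intro h
      exact hinj _ _ h
    · rintro (h | ⟨h1, h2⟩)
      · exact congrArg q h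
      · have h3 : ∀ z, (z = x ∨ z = y) → q z = q x := by
          rintro z (rfl | rfl)
          · rfl
          · exact hqxy.symm
        exact (h3 _ h1).trans (h3 _ h2).symm
  · intro u v
    obtain ⟨u, rfl⟩ := hq u
    obtain ⟨v, rfl⟩ := hq v
    have h := M.conn u v
    induction h with
    | refl => exact Relation.ReflTransGen.refl
    | tail _ h2 ih =>
      obtain ⟨d, rfl, rfl⟩ := h2
      exact Relation.ReflTransGen.tail ih ⟨d, rfl, rfl⟩
  · have h1 := M.euler
    rw [mul_assoc]
    omega

/-- CONTRACTION: connected fibres can be contracted in a plane map -/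
theorem contract : ∀ (n : ℕ) (X Y : Type) [Fintype X] [Fintype Y], Fintype.card X ≤ n →
    ∀ (M : PlaneMap X D) (q : X → Y), Function.Surjective q →
    (∀ x x', q x = q x' → Relation.ReflTransGen (fun a b => M.Adj a b ∧ q a = q x ∧ q b = q x)
      x x') →
    ∃ M' : PlaneMap Y D, M'.vert = q ∘ M.vert ∧ M'.α = M.α := by
  intro n
  induction n with
  | zero =>
    intro X Y _ _ hn M q hq _
    refine relabel M q ⟨?_, hq⟩
    intro u
    have : IsEmpty X := Fintype.card_eq_zero_iff.1 (by omega)
    exact this.elim u
  | succ n ih =>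
    intro X Y _ _ hn M q hq hf
    by_cases hinj : Function.Injective q
    · exact relabel M q ⟨hinj, hq⟩
    have h1 : ∃ x y, x ≠ y ∧ M.Adj x y ∧ q x = q y := by
      by_contra hno
      push Not at hno
      apply hinj
      intro x x' hxx
      have h := hf x x' hxx
      have : ∀ z, Relation.ReflTransGen (fun a b => M.Adj a b ∧ q a = q x ∧ q b = q x) x z →
          x = z := by
        intro z hz
        induction hz with
        | refl => rfl
        | tail _ h2 ih =>
          rename_i b c _
          by_contra hbc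
          by_cases hb : b = c
          · exact hbc (ih.trans hb)
          · exact hno b c hb h2.1 (h2.2.1.trans h2.2.2.symm)
      exact this x' h
    obtain ⟨x, y, hxy, hadj, hqxy⟩ := h1
    let X' := {z : X // z ≠ y}
    let p : X → X' := fun z => if h : z = y then ⟨x, hxy⟩ else ⟨z, h⟩
    have hpy : p y = ⟨x, hxy⟩ := by simp [p]
    have hpz : ∀ z (h : z ≠ y), p z = ⟨z, h⟩ := by intro z h; simp [p, h]
    have hps : Function.Surjective p := fun z => ⟨z.1, hpz z.1 z.2⟩
    have hqp : ∀ z, q (p z).1 = q z := by
      intro z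
      by_cases h : z = y
      · rw [h, hpy, hqxy]
      · rw [hpz z h]
    obtain ⟨M1, hM1, hM1α⟩ := step M p hps hxy hadj (by rw [hpy, hpz x hxy]) (by
      intro u v huv
      by_cases hu : u = y
      · by_cases hv : v = y
        · exact Or.inl (hu.trans hv.symm)
        · rw [hu, hpy, hpz v hv] at huv
          have := congrArg Subtype.val huv
          exact Or.inr ⟨Or.inr hu, Or.inl this.symm⟩
      · by_cases hv : v = y
        · rw [hv, hpy, hpz u hu] at huv
          have := congrArg Subtype.val huv
          exact Or.inr ⟨Or.inl this, Or.inr hv⟩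
        · rw [hpz u hu, hpz v hv] at huv
          exact Or.inl (congrArg Subtype.val huv))
    have hcard : Fintype.card X' ≤ n := by
      have : Fintype.card X' < Fintype.card X :=
        Fintype.card_subtype_lt (x := y) (by simp)
      omega
    have hadj1 : ∀ a b, M.Adj a b → M1.Adj (p a) (p b) := by
      rintro a b ⟨d, rfl, rfl⟩
      exact ⟨d, by rw [hM1]; rfl, by rw [hM1, hM1α]; rfl⟩
    obtain ⟨M2, hM2, hM2α⟩ := ih X' Y hcard M1 (fun z => q z.1) (by
        intro z
        obtain ⟨w, rfl⟩ := hq z
        exact ⟨p w, hqp w⟩) (by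
      rintro ⟨u, hu⟩ ⟨v, hv⟩ huv
      have h := hf u v huv
      have : ∀ z, Relation.ReflTransGen (fun a b => M.Adj a b ∧ q a = q u ∧ q b = q u) u z →
          Relation.ReflTransGen (fun a b : X' => M1.Adj a b ∧ q a.1 = q u ∧ q b.1 = q u)
            (p u) (p z) := by
        intro z hz
        induction hz with
        | refl => exact Relation.ReflTransGen.refl
        | tail _ h2 ih =>
          refine Relation.ReflTransGen.tail ih ⟨hadj1 _ _ h2.1, ?_, ?_⟩
          · rw [hqp]; exact h2.2.1
          · rw [hqp]; exact h2.2.2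
      have h3 := this v h
      rw [hpz u hu, hpz v hv] at h3
      exact h3)
    refine ⟨M2, ?_, hM2α.trans hM1α⟩
    rw [hM2, hM1]
    funext d
    exact hqp _

/-- CONTRACTION, usable form: the new adjacency -/
theorem contract' {X Y : Type} [Fintype X] [Fintype Y] (M : PlaneMap X D) (q : X → Y)
    (hq : Function.Surjective q)
    (hf : ∀ x x', q x = q x' →
      Relation.ReflTransGen (fun a b => M.Adj a b ∧ q a = q x ∧ q b = q x) x x') :
    ∃ M' : PlaneMap Y D, M'.vert = q ∘ M.vert ∧ M'.α = M.α ∧
      ∀ y y', M'.Adj y y' ↔ ∃ x x', q x = y ∧ q x' = y' ∧ M.Adj x x' := by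
  obtain ⟨M', h1, h2⟩ := contract (Fintype.card X) X Y le_rfl M q hq hf
  refine ⟨M', h1, h2, ?_⟩
  intro y y'
  constructor
  · rintro ⟨d, rfl, rfl⟩
    exact ⟨M.vert d, M.vert (M.α d), by rw [h1]; rfl, by rw [h1, h2]; rfl, d, rfl, rfl⟩
  · rintro ⟨x, x', rfl, rfl, d, rfl, rfl⟩
    exact ⟨d, by rw [h1]; rfl, by rw [h1, h2]; rfl⟩

end

end Pool.Agent.Lib.MP_1fca17_co.TOP.Contract7
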