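import Mathlib
import Pool.Agent.Lib.MP_1fca17_co.Q.Defs

/-!
# MP_1fca17_co : minors of plane maps (merging adjacent vertices)

`merge`: two different adjacent vertices of a plane map are identified (all darts are kept, the
edge between them becomes a loop).  `minor`: all the fibres of a surjection with connected fibres.
-/

namespace Pool.Agent.Lib.MP_1fca17_co.TOP.Minor32

open scoped Classical
open Pool.Agent.Lib.MP_1fca17_co.Q (PlaneMap)
open Equiv Equiv.Perm

variable {D : Type} [Finite D]

theorem sc_induct {p : Perm D} {P : D → Prop} {x y : D} (h : p.SameCycle x y) (h0 : P x)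
    (hs : ∀ z, p.SameCycle x z → P z → P (p z)) : P y := by
  obtain ⟨i, rfl⟩ := h.exists_nat_pow_eq
  clear h
  induction i with
  | zero => simpa using h0
  | succ i ih =>
    rw [pow_succ', Perm.mul_apply]
    exact hs _ ⟨i, by simp⟩ ih

omit [Finite D] in
theorem sc_step (p : Perm D) (x : D) : p.SameCycle x (p x) :=
  Equiv.Perm.sameCycle_apply_right.2 (SameCycle.refl p x)

/-- joining two cycles -/
theorem join_key {p : Perm D} {a b : D} (hab : ¬ p.SameCycle a b) :
    (Equiv.swap a b * p).SameCycle a b := by
  -- the least positive `n` with `p ^ n a = a`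
  have hex : ∃ n : ℕ, (p ^ (n + 1)) a = a := by
    obtain ⟨n, hn⟩ := ((sc_step p a).symm).exists_nat_pow_eq
    refine ⟨n, ?_⟩
    rw [pow_succ, Perm.mul_apply]
    exact hn
  have hn := Nat.find_spec hex
  have hmin : ∀ m, m < Nat.find hex → (p ^ (m + 1)) a ≠ a := fun m hm => Nat.find_min hex hm
  set n := Nat.find hex with hnd
  have hb : ∀ m, (p ^ m) a ≠ b := fun m hm => hab ⟨m, by simpa using hm⟩
  have key : ∀ m, m ≤ n → ((Equiv.swap a b * p) ^ m) a = (p ^ m) a := by
    intro m hm
    induction m with
    | zero => simp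
    | succ m ih =>
      rw [pow_succ', Perm.mul_apply, ih (by omega), Perm.mul_apply, ← Perm.mul_apply p,
        ← pow_succ', Equiv.swap_apply_of_ne_of_ne (hmin m (by omega)) (hb _)]
  refine ⟨((n + 1 : ℕ) : ℤ), ?_⟩
  rw [zpow_natCast, pow_succ', Perm.mul_apply, key n le_rfl, Perm.mul_apply, ← Perm.mul_apply p,
    ← pow_succ', hn, Equiv.swap_apply_left]

theorem join_iff {p : Perm D} {a b : D} (hab : ¬ p.SameCycle a b) (x y : D) :
    (Equiv.swap a b * p).SameCycle x y ↔ p.SameCycle x y ∨
      (p.SameCycle a x ∧ p.SameCycle b y) ∨ (p.SameCycle b x ∧ p.SameCycle a y) := by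
  have hkey := join_key hab
  -- a step of `p` stays in a cycle of the product
  have hstep : ∀ z, (Equiv.swap a b * p).SameCycle z (p z) := by
    intro z
    have h1 := sc_step (Equiv.swap a b * p) z
    rw [Perm.mul_apply] at h1
    rcases eq_or_ne (p z) a with ha | ha
    · rw [ha, Equiv.swap_apply_left] at h1
      rw [ha]
      exact h1.trans hkey.symm
    rcases eq_or_ne (p z) b with hb | hb
    · rw [hb, Equiv.swap_apply_right] at h1
      rw [hb]
      exact h1.trans hkey
    · rwa [Equiv.swap_apply_of_ne_of_ne ha hb] at h1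
  have hsub : ∀ u v, p.SameCycle u v → (Equiv.swap a b * p).SameCycle u v := by
    intro u v h
    exact sc_induct (P := fun w => (Equiv.swap a b * p).SameCycle u w) h (SameCycle.refl _ _)
      (fun z _ hz => hz.trans (hstep z))
  constructor
  · intro h
    refine sc_induct (P := fun y => p.SameCycle x y ∨
      (p.SameCycle a x ∧ p.SameCycle b y) ∨ (p.SameCycle b x ∧ p.SameCycle a y)) h
      (Or.inl (SameCycle.refl _ _)) ?_
    intro z _ hz
    rw [Perm.mul_apply]
    have hz' : p.SameCycle x (p z) ∨ (p.SameCycle a x ∧ p.SameCycle b (p z)) ∨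
        (p.SameCycle b x ∧ p.SameCycle a (p z)) := by
      rcases hz with h | ⟨h, h'⟩ | ⟨h, h'⟩
      · exact Or.inl (h.trans (sc_step p z))
      · exact Or.inr (Or.inl ⟨h, h'.trans (sc_step p z)⟩)
      · exact Or.inr (Or.inr ⟨h, h'.trans (sc_step p z)⟩)
    rcases eq_or_ne (p z) a with ha | ha
    · rw [ha] at hz' ⊢
      rw [Equiv.swap_apply_left]
      rcases hz' with h | ⟨_, h'⟩ | ⟨h, _⟩
      · exact Or.inr (Or.inl ⟨h.symm, SameCycle.refl _ _⟩)
      · exact absurd h'.symm hab
      · exact Or.inl h.symm
    rcases eq_or_ne (p z) b with hb | hb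
    · rw [hb] at hz' ⊢
      rw [Equiv.swap_apply_right]
      rcases hz' with h | ⟨h, _⟩ | ⟨_, h'⟩
      · exact Or.inr (Or.inr ⟨h.symm, SameCycle.refl _ _⟩)
      · exact Or.inl h.symm
      · exact absurd h' hab
    · rw [Equiv.swap_apply_of_ne_of_ne ha hb]
      exact hz'
  · rintro (h | ⟨h, h'⟩ | ⟨h, h'⟩)
    · exact hsub _ _ h
    · exact ((hsub _ _ h).symm.trans hkey).trans (hsub _ _ h')
    · exact ((hsub _ _ h).symm.trans hkey.symm).trans (hsub _ _ h')

/-- cutting off a fixed point -/
theorem cut_iff {p : Perm D} {a : D} (ha : p a ≠ a) {x y : D} (hx : x ≠ a) (hy : y ≠ a) :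
    (Equiv.swap a (p a) * p).SameCycle x y ↔ p.SameCycle x y := by
  have hstep : ∀ z, z ≠ a → (Equiv.swap a (p a) * p) z = if p z = a then p a else p z := by
    intro z hz
    rw [Perm.mul_apply]
    split_ifs with h
    · rw [h, Equiv.swap_apply_left]
    · exact Equiv.swap_apply_of_ne_of_ne h (fun h' => hz (p.injective h'))
  constructor
  · intro h
    have := sc_induct (P := fun w => w ≠ a ∧ p.SameCycle x w) h ⟨hx, SameCycle.refl _ _⟩ (by
      rintro z _ ⟨hz, hxz⟩
      rw [hstep z hz]
      split_ifs with h1
      · refine ⟨ha, ?_⟩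
        have := hxz.trans (sc_step p z)
        rw [h1] at this
        exact this.trans (sc_step p a)
      · exact ⟨h1, hxz.trans (sc_step p z)⟩)
    exact this.2
  · intro h
    have := sc_induct (P := fun w => (Equiv.swap a (p a) * p).SameCycle x (if w = a then p a else w))
      h (by rw [if_neg hx]) (by
        intro z _ hz
        rcases eq_or_ne z a with rfl | hza
        · rw [if_pos rfl] at hz
          rw [if_neg ha]
          exact hz
        · rw [if_neg hza] at hz
          have h1 := sc_step (Equiv.swap a (p a) * p) z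
          rw [hstep z hza] at h1
          exact hz.trans h1)
    rwa [if_neg hy] at this

theorem cut_fix {p : Perm D} {a : D} {y : D} :
    (Equiv.swap a (p a) * p).SameCycle a y ↔ a = y := by
  have hfix : (Equiv.swap a (p a) * p) a = a := by
    rw [Perm.mul_apply, Equiv.swap_apply_right]
  constructor
  · intro h
    exact sc_induct (P := fun w => a = w) h rfl (by
      rintro z _ rfl
      exact hfix.symm)
  · rintro rfl
    exact SameCycle.refl _ _

theorem cut_card {p : Perm D} {a : D} (ha : p a ≠ a) :
    Nat.card (Quotient (SameCycle.setoid (Equiv.swap a (p a) * p))) =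
      Nat.card (Quotient (SameCycle.setoid p)) + 1 := by
  rw [← Finite.card_option]
  -- the map from the new classes
  let s' := SameCycle.setoid (Equiv.swap a (p a) * p)
  let s := SameCycle.setoid p
  let g : D → Option (Quotient s) := fun x => if x = a then none else some (Quotient.mk s x)
  have hg : ∀ x y, s'.r x y → g x = g y := by
    intro x y h
    have h' : (Equiv.swap a (p a) * p).SameCycle x y := h
    rcases eq_or_ne x a with rfl | hx
    · rw [cut_fix] at h'
      rw [h']
    rcases eq_or_ne y a with rfl | hy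
    · rw [sameCycle_comm, cut_fix] at h'
      rw [h']
    · simp only [g, if_neg hx, if_neg hy]
      congr 1
      exact Quotient.sound ((cut_iff ha hx hy).1 h')
  let gg : Quotient s' → Option (Quotient s) := Quotient.lift g hg
  refine Nat.card_congr (Equiv.ofBijective gg ⟨?_, ?_⟩)
  · intro u v
    refine Quotient.inductionOn₂ u v ?_
    intro x y h
    have h' : g x = g y := h
    refine Quotient.sound ?_
    change (Equiv.swap a (p a) * p).SameCycle x y
    by_cases hx : x = a
    · by_cases hy : y = a
      · rw [hx, hy]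
      · simp [g, hx, hy] at h'
    · by_cases hy : y = a
      · simp [g, hx, hy] at h'
      · simp only [g, if_neg hx, if_neg hy, Option.some.injEq] at h'
        exact (cut_iff ha hx hy).2 (Quotient.exact h')
  · intro o
    cases o with
    | none => exact ⟨Quotient.mk s' a, by simp [gg, g]⟩
    | some q =>
      refine Quotient.inductionOn q ?_
      intro x
      by_cases hx : x = a
      · refine ⟨Quotient.mk s' (p a), ?_⟩
        have h1 : gg (Quotient.mk s' (p a)) = g (p a) := rfl
        rw [h1]
        simp only [g, if_neg ha]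
        congr 1
        refine Quotient.sound ?_
        change p.SameCycle (p a) x
        rw [hx]
        exact (sc_step p a).symm
      · refine ⟨Quotient.mk s' x, ?_⟩
        have h1 : gg (Quotient.mk s' x) = g x := rfl
        rw [h1]
        simp only [g, if_neg hx]
        rfl

omit [Finite D] in
theorem rtg_lift {A B : Type} {r : A → A → Prop} {p : B → B → Prop} (f : A → B)
    (h : ∀ a b, r a b → p (f a) (f b)) {a b : A} (hab : Relation.ReflTransGen r a b) :
    Relation.ReflTransGen p (f a) (f b) := by
  induction hab with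
  | refl => exact Relation.ReflTransGen.refl
  | tail _ hbc ih => exact ih.tail (h _ _ hbc)

/-- MERGE -/
theorem merge {X Y D : Type} [Fintype X] [Fintype Y] [Fintype D] (M : PlaneMap X D) (d : D)
    (hne : M.vert d ≠ M.vert (M.α d)) (f : X → Y) (hf : Function.Surjective f)
    (hfib : ∀ x y, f x = f y ↔ x = y ∨ (x = M.vert d ∧ y = M.vert (M.α d)) ∨
      (x = M.vert (M.α d) ∧ y = M.vert d)) :
    ∃ M' : PlaneMap Y D, (∀ e, M'.vert e = f (M.vert e)) ∧ ∀ e, M'.α e = M.α e := by
  set b : D := M.σ (M.α d) with hb
  have hvb : M.vert b = M.vert (M.α d) := ((M.orbit _ _).2 (sc_step M.σ (M.α d))).symm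
  have hnc : ¬ M.σ.SameCycle d b := by
    rw [← M.orbit, hvb]
    exact hne
  have hcard : Fintype.card Y + 1 = Fintype.card X := by
    have h1 : Fintype.card X = (Finset.univ.erase (M.vert d)).card + 1 := by
      rw [Finset.card_erase_add_one (Finset.mem_univ _), Finset.card_univ]
    rw [h1]
    congr 1
    rw [← Finset.card_univ]
    symm
    refine Finset.card_bij (fun x _ => f x) (fun _ _ => Finset.mem_univ _) ?_ ?_
    · intro x hx y hy hxy
      rcases (hfib x y).1 hxy with h | ⟨h, _⟩ | ⟨_, h⟩
      · exact h
      · exact absurd h (Finset.ne_of_mem_erase hx)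
      · exact absurd h (Finset.ne_of_mem_erase hy)
    · intro y _
      obtain ⟨x, rfl⟩ := hf y
      by_cases hx : x = M.vert d
      · refine ⟨M.vert (M.α d), Finset.mem_erase.2 ⟨hne.symm, Finset.mem_univ _⟩, ?_⟩
        exact (hfib _ _).2 (Or.inr (Or.inr ⟨rfl, hx⟩))
      · exact ⟨x, Finset.mem_erase.2 ⟨hx, Finset.mem_univ _⟩, rfl⟩
  have hphi : (M.σ * M.α) d = b := by rw [Perm.mul_apply]
  have hbd : b ≠ d := by
    intro h
    rw [h] at hvb
    exact hne hvb
  refine ⟨{ vert := fun e => f (M.vert e), σ := Equiv.swap d b * M.σ, α := M.α,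
            invol := M.invol, nofix := M.nofix, surj := hf.comp M.surj, orbit := ?_,
            conn := ?_, euler := ?_ }, fun _ => rfl, fun _ => rfl⟩
  · intro e e'
    rw [join_iff hnc, hfib, ← M.orbit, ← M.orbit, ← M.orbit, ← M.orbit, ← M.orbit, hvb]
    constructor
    · rintro (h | ⟨h, h'⟩ | ⟨h, h'⟩)
      · exact Or.inl h
      · exact Or.inr (Or.inl ⟨h.symm, h'.symm⟩)
      · exact Or.inr (Or.inr ⟨h.symm, h'.symm⟩)
    · rintro (h | ⟨h, h'⟩ | ⟨h, h'⟩)
      · exact Or.inl h
      · exact Or.inr (Or.inl ⟨h.symm, h'.symm⟩)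
      · exact Or.inr (Or.inr ⟨h.symm, h'.symm⟩)
  · intro x y
    obtain ⟨x, rfl⟩ := hf x
    obtain ⟨y, rfl⟩ := hf y
    refine rtg_lift f ?_ (M.conn x y)
    rintro u v ⟨e, rfl, rfl⟩
    exact ⟨e, rfl, rfl⟩
  · have h1 : Nat.card (Quotient (SameCycle.setoid (Equiv.swap d b * M.σ * M.α))) =
        Nat.card (Quotient (SameCycle.setoid (M.σ * M.α))) + 1 := by
      rw [mul_assoc, ← hphi]
      exact cut_card (by rw [hphi]; exact hbd)
    rw [h1]
    have := M.euler
    omega

/-- MINOR: a surjection with connected fibres maps a plane map onto a plane map with the same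
darts -/
theorem minor {X D : Type} [Fintype X] [Fintype D] (M : PlaneMap X D) :
    ∀ (Y : Type) [Fintype Y] (f : X → Y), Function.Surjective f →
    (∀ x y, f x = f y → Relation.ReflTransGen
      (fun a b => f a = f b ∧ ∃ d, M.vert d = a ∧ M.vert (M.α d) = b) x y) →
    ∃ M' : PlaneMap Y D, (∀ e, M'.vert e = f (M.vert e)) ∧ ∀ e, M'.α e = M.α e := by
  suffices H : ∀ (n : ℕ) (X : Type) [Fintype X] (M : PlaneMap X D), Fintype.card X = n →
      ∀ (Y : Type) [Fintype Y] (f : X → Y), Function.Surjective f →
      (∀ x y, f x = f y → Relation.ReflTransGen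
        (fun a b => f a = f b ∧ ∃ d, M.vert d = a ∧ M.vert (M.α d) = b) x y) →
      ∃ M' : PlaneMap Y D, (∀ e, M'.vert e = f (M.vert e)) ∧ ∀ e, M'.α e = M.α e from
    H _ X M rfl
  intro n
  induction n using Nat.strong_induction_on with
  | _ n ih =>
    intro X _ M hn Y _ f hf hconn
    by_cases hinj : Function.Injective f
    · -- relabel the vertices
      refine ⟨{ vert := fun e => f (M.vert e), σ := M.σ, α := M.α,
                invol := M.invol, nofix := M.nofix, surj := hf.comp M.surj, orbit := ?_,
                conn := ?_, euler := ?_ }, fun _ => rfl, fun _ => rfl⟩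
      · intro e e'
        rw [hinj.eq_iff, M.orbit]
      · intro x y
        obtain ⟨x, rfl⟩ := hf x
        obtain ⟨y, rfl⟩ := hf y
        refine rtg_lift f ?_ (M.conn x y)
        rintro u v ⟨e, rfl, rfl⟩
        exact ⟨e, rfl, rfl⟩
      · have h1 : Fintype.card Y = Fintype.card X :=
          (Fintype.card_of_bijective ⟨hinj, hf⟩).symm
        rw [h1]
        exact M.euler
    · -- two adjacent vertices in one fibre
      have hex : ∃ d, M.vert d ≠ M.vert (M.α d) ∧ f (M.vert d) = f (M.vert (M.α d)) := by
        by_contra hno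
        push Not at hno
        apply hinj
        intro x y hxy
        have := hconn x y hxy
        clear hxy
        induction this with
        | refl => rfl
        | tail _ hbc ih' =>
          obtain ⟨h1, e, h2, h3⟩ := hbc
          rw [ih']
          by_contra hne
          exact hno e (by rw [h2, h3]; exact hne) (by rw [h2, h3]; exact h1)
      obtain ⟨d, hd, hfd⟩ := hex
      -- remove the vertex `vert (α d)`
      set y0 := M.vert (M.α d) with hy0
      let Z : Type := {x : X // x ≠ y0}
      let g : X → Z := fun x => if h : x = y0 then ⟨M.vert d, hd⟩ else ⟨x, h⟩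
      have hg0 : g y0 = ⟨M.vert d, hd⟩ := by simp [g]
      have hg1 : ∀ x (h : x ≠ y0), g x = ⟨x, h⟩ := fun x h => by simp [g, h]
      have hgs : Function.Surjective g := fun z => ⟨z.1, hg1 z.1 z.2⟩
      have hgf : ∀ x, f (g x).1 = f x := by
        intro x
        by_cases h : x = y0
        · rw [h, hg0, ← hfd]
        · rw [hg1 x h]
      have hfib : ∀ x y, g x = g y ↔ x = y ∨ (x = M.vert d ∧ y = M.vert (M.α d)) ∨
          (x = M.vert (M.α d) ∧ y = M.vert d) := by
        intro x y
        rw [← hy0]
        by_cases hx : x = y0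
        · by_cases hy : y = y0
          · simp [hx, hy]
          · rw [hx, hg0, hg1 y hy]
            constructor
            · intro h
              exact Or.inr (Or.inr ⟨rfl, (Subtype.ext_iff.1 h).symm⟩)
            · rintro (h | ⟨_, h⟩ | ⟨_, h⟩)
              · exact absurd h.symm hy
              · exact absurd h hy
              · exact Subtype.ext h.symm
        · by_cases hy : y = y0
          · rw [hy, hg0, hg1 x hx]
            constructor
            · intro h
              exact Or.inr (Or.inl ⟨Subtype.ext_iff.1 h, rfl⟩)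
            · rintro (h | ⟨h, _⟩ | ⟨h, _⟩)
              · exact absurd h hx
              · exact Subtype.ext h
              · exact absurd h hx
          · rw [hg1 x hx, hg1 y hy]
            constructor
            · intro h
              exact Or.inl (Subtype.ext_iff.1 h)
            · rintro (h | ⟨_, h⟩ | ⟨h, _⟩)
              · exact Subtype.ext h
              · exact absurd h hy
              · exact absurd h hx
      obtain ⟨M1, hM1, hM1'⟩ := merge M d hd g hgs hfib
      have hlt : Fintype.card Z < n := by
        rw [← hn]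
        exact Fintype.card_subtype_lt (x := y0) (by simp)
      have hfz : Function.Surjective (fun z : Z => f z.1) := by
        intro y
        obtain ⟨x, rfl⟩ := hf y
        exact ⟨g x, hgf x⟩
      obtain ⟨M2, h2, h2'⟩ := ih _ hlt Z M1 rfl Y (fun z => f z.1) hfz (by
        intro x y hxy
        have h3 := rtg_lift (p := fun a b : Z => f a.1 = f b.1 ∧
          ∃ e, M1.vert e = a ∧ M1.vert (M1.α e) = b) g (by
            rintro u v ⟨huv, e, he, he'⟩
            refine ⟨by rw [hgf, hgf, huv], e, by rw [hM1, he], by rw [hM1, hM1', he']⟩)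
          (hconn x.1 y.1 hxy)
        rwa [hg1 x.1 x.2, hg1 y.1 y.2] at h3)
      exact ⟨M2, fun e => by rw [h2, hM1, hgf], fun e => by rw [h2', hM1']⟩

end Pool.Agent.Lib.MP_1fca17_co.TOP.Minor32
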