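import Mathlib
import Pool.Agent.Lib.MP_1fca17_co.TOP.Contract7
import Pool.Agent.Lib.MP_1fca17_co.T.Grid99
import Pool.Agent.Lib.MP_1fca17_co.T.Cells20

/-!
# MP_1fca17_co : disjoint connected sets of cells give a plane map (helper7)
-/

namespace Pool.Agent.Lib.MP_1fca17_co.TOP.Planar7

set_option linter.unusedSectionVars false

open Finset
open scoped Classical
open Pool.Agent.Lib.MP_1fca17_co.Q
open Pool.Agent.Lib.MP_1fca17_co.T (SideAdj)

noncomputable section

/-- GROW: a partial assignment with connected fibres extends to a total one -/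
theorem grow {C X : Type} [Fintype C] [Nonempty X] (A : C → C → Prop)
    (hsym : ∀ a b, A a b → A b a) (hconn : ∀ a b, Relation.ReflTransGen A a b) :
    ∀ (n : ℕ) (g : C → Option X), (univ.filter (fun c => g c = none)).card ≤ n →
      (∀ x, ∃ c, g c = some x) →
      (∀ x c c', g c = some x → g c' = some x →
        Relation.ReflTransGen (fun a b => A a b ∧ g a = some x ∧ g b = some x) c c') →
      ∃ f : C → X, (∀ c x, g c = some x → f c = x) ∧
        ∀ c c', f c = f c' →
          Relation.ReflTransGen (fun a b => A a b ∧ f a = f c ∧ f b = f c) c c' := by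
  intro n
  induction n with
  | zero =>
    intro g hn _ hf
    have hno : ∀ c, g c ≠ none := by
      intro c hc
      have : c ∈ univ.filter (fun c => g c = none) := by simp [hc]
      have h2 := Finset.card_pos.2 ⟨c, this⟩
      omega
    have hs : ∀ c, ∃ x, g c = some x := fun c => Option.ne_none_iff_exists'.1 (hno c)
    choose f hfs using hs
    refine ⟨f, ?_, ?_⟩
    · intro c x hc
      have := hfs c
      rw [hc] at this
      exact (Option.some.inj this).symm
    · intro c c' hcc
      have h := hf (f c) c c' (hfs c) (by rw [hfs c', hcc])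
      refine Relation.ReflTransGen.mono ?_ _ _ h
      rintro a b ⟨h1, h2, h3⟩
      refine ⟨h1, ?_, ?_⟩
      · rw [hfs a] at h2
        exact Option.some.inj h2
      · rw [hfs b] at h3
        exact Option.some.inj h3
  | succ n ih =>
    intro g hn hsurj hf
    by_cases hall : ∀ c, g c ≠ none
    · refine ih g ?_ hsurj hf
      have : univ.filter (fun c => g c = none) = ∅ := by
        ext c
        simp [hall c]
      rw [this]
      simp
    push Not at hall
    obtain ⟨c0, hc0⟩ := hall
    obtain ⟨c1, hc1⟩ := hsurj (Classical.arbitrary X)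
    have hstep : ∃ a b, A a b ∧ g a ≠ none ∧ g b = none := by
      by_contra hno
      push Not at hno
      have : ∀ c, Relation.ReflTransGen A c1 c → g c ≠ none := by
        intro c hc
        induction hc with
        | refl => rw [hc1]; simp
        | tail _ h2 ih => exact hno _ _ h2 ih
      exact this c0 (hconn c1 c0) hc0
    obtain ⟨a, b, hab, ha, hb⟩ := hstep
    obtain ⟨z, hz⟩ := Option.ne_none_iff_exists'.1 ha
    let g' : C → Option X := Function.update g b (some z)
    have hgb : g' b = some z := by simp [g']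
    have hgne : ∀ c, c ≠ b → g' c = g c := by intro c hc; simp [g', hc]
    have hle : ∀ c x, g c = some x → g' c = some x := by
      intro c x hc
      rw [hgne c]
      · exact hc
      · rintro rfl
        rw [hb] at hc
        exact absurd hc (by simp)
    have hcard : (univ.filter (fun c => g' c = none)).card ≤ n := by
      have hsub : univ.filter (fun c => g' c = none) ⊂ univ.filter (fun c => g c = none) := by
        rw [Finset.ssubset_iff_of_subset]
        · exact ⟨b, by simp [hb], by simp [hgb]⟩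
        · intro c hc
          simp only [mem_filter, mem_univ, true_and] at hc ⊢
          by_cases hcb : c = b
          · rw [hcb]; exact hb
          · rwa [hgne c hcb] at hc
      have := Finset.card_lt_card hsub
      omega
    obtain ⟨f, hf1, hf2⟩ := ih g' hcard (fun x => by
        obtain ⟨c, hc⟩ := hsurj x
        exact ⟨c, hle c x hc⟩) (by
      intro x
      have hmono : ∀ c c', g c = some x → g c' = some x →
          Relation.ReflTransGen (fun a b => A a b ∧ g' a = some x ∧ g' b = some x) c c' := by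
        intro c c' h1 h2
        refine Relation.ReflTransGen.mono ?_ _ _ (hf x c c' h1 h2)
        rintro u v ⟨h3, h4, h5⟩
        exact ⟨h3, hle _ _ h4, hle _ _ h5⟩
      intro c c' h1 h2
      by_cases hc : c = b
      · subst hc
        by_cases hc' : c' = c
        · rw [hc']
        · rw [hgne c' hc'] at h2
          have hx : z = x := by
            rw [hgb] at h1
            exact Option.some.inj h1
          subst hx
          exact Relation.ReflTransGen.head ⟨hsym _ _ hab, hgb, hle _ _ hz⟩ (hmono _ _ hz h2)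
      · rw [hgne c hc] at h1
        by_cases hc' : c' = b
        · subst hc'
          have hx : z = x := by
            rw [hgb] at h2
            exact Option.some.inj h2
          subst hx
          exact Relation.ReflTransGen.tail (hmono _ _ h1 hz) ⟨hab, hle _ _ hz, hgb⟩
        · rw [hgne c' hc'] at h2
          exact hmono _ _ h1 h2)
    exact ⟨f, fun c x hc => hf1 c x (hle c x hc), hf2⟩

theorem adj_symm {X D : Type} [Fintype X] [Fintype D] (M : PlaneMap X D) {x y : X}
    (h : M.Adj x y) : M.Adj y x := by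
  obtain ⟨d, h1, h2⟩ := h
  exact ⟨M.α d, h2, by rw [M.invol]; exact h1⟩

/-- the embedding of the cells into a cylinder -/
def emb (N : ℕ) (p : ℤ × ℤ) : ZMod (2 * N + 2) × Fin (2 * N + 1) :=
  ((p.1 : ZMod (2 * N + 2)), Fin.ofNat (2 * N + 1) (p.2 + N).toNat)

def Box (N : ℕ) (p : ℤ × ℤ) : Prop := |p.1| ≤ N ∧ |p.2| ≤ N

lemma emb_snd {N : ℕ} {p : ℤ × ℤ} (hp : Box N p) : ((emb N p).2 : ℕ) = (p.2 + N).toNat := by
  have h := abs_le.1 hp.2
  change (p.2 + N).toNat % (2 * N + 1) = _
  exact Nat.mod_eq_of_lt (by omega)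

lemma emb_inj {N : ℕ} {p q : ℤ × ℤ} (hp : Box N p) (hq : Box N q) (h : emb N p = emb N q) :
    p = q := by
  have h1 := congrArg Prod.fst h
  have h2 : ((emb N p).2 : ℕ) = ((emb N q).2 : ℕ) := by rw [h]
  rw [emb_snd hp, emb_snd hq] at h2
  have hp1 := abs_le.1 hp.1
  have hp2 := abs_le.1 hp.2
  have hq1 := abs_le.1 hq.1
  have hq2 := abs_le.1 hq.2
  refine Prod.ext ?_ (by omega)
  simp only [emb] at h1
  rw [ZMod.intCast_eq_intCast_iff_dvd_sub] at h1
  obtain ⟨t, ht⟩ := h1
  push_cast at ht
  by_contra hne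
  rcases lt_trichotomy t 0 with h | h | h
  · have : (2 * (N : ℤ) + 2) * t ≤ (2 * (N : ℤ) + 2) * (-1) :=
      mul_le_mul_of_nonneg_left (by omega) (by omega)
    omega
  · rw [h, mul_zero] at ht
    omega
  · have : (2 * (N : ℤ) + 2) * 1 ≤ (2 * (N : ℤ) + 2) * t :=
      mul_le_mul_of_nonneg_left (by omega) (by omega)
    omega

lemma emb_adj {N : ℕ} {p q : ℤ × ℤ} (hp : Box N p) (hq : Box N q) (h : SideAdj p q) :
    (T.Grid99.grid (2 * N + 2) (2 * N)).Adj (emb N p) (emb N q) := by
  have hp2 := abs_le.1 hp.2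
  have hq2 := abs_le.1 hq.2
  have hh : ∀ p q : ℤ × ℤ, p.2 = q.2 → q.1 = p.1 + 1 →
      (T.Grid99.grid (2 * N + 2) (2 * N)).Adj (emb N p) (emb N q) := by
    intro p q h1 h2
    have := T.Grid99.grid_adj_h (n := 2 * N + 2) (m := 2 * N) (p.1 : ZMod (2 * N + 2)) (emb N p).2
    have e1 : emb N q = ((p.1 : ZMod (2 * N + 2)) + 1, (emb N p).2) := by
      simp only [emb, h1, h2]
      push_cast
      rfl
    rw [e1]
    exact this
  have hv : ∀ p q : ℤ × ℤ, Box N p → Box N q → p.1 = q.1 → q.2 = p.2 + 1 →
      (T.Grid99.grid (2 * N + 2) (2 * N)).Adj (emb N p) (emb N q) := by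
    intro p q hp hq h1 h2
    have hp2 := abs_le.1 hp.2
    have hq2 := abs_le.1 hq.2
    have := T.Grid99.grid_adj_v (n := 2 * N + 2) (m := 2 * N) (p.1 : ZMod (2 * N + 2))
      ⟨(p.2 + N).toNat, by omega⟩
    have e1 : emb N p = ((p.1 : ZMod (2 * N + 2)),
        Fin.castSucc (⟨(p.2 + N).toNat, by omega⟩ : Fin (2 * N))) := by
      refine Prod.ext rfl (Fin.ext ?_)
      rw [emb_snd hp]
      rfl
    have e2 : emb N q = ((p.1 : ZMod (2 * N + 2)),
        Fin.succ (⟨(p.2 + N).toNat, by omega⟩ : Fin (2 * N))) := by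
      refine Prod.ext (by simp only [emb, h1]) (Fin.ext ?_)
      rw [emb_snd hq]
      simp only [Fin.val_succ]
      omega
    rw [e1, e2]
    exact this
  rcases h with ⟨h1, h2 | h2⟩ | ⟨h1, h2 | h2⟩
  · exact hh p q h1 h2
  · exact adj_symm _ (hh q p h1.symm h2)
  · exact hv p q hp hq h1 h2
  · exact adj_symm _ (hv q p hq hp h1.symm h2)

/-- PLANAR: disjoint connected finite sets of cells are the vertices of a plane map -/
theorem planar {X : Type} [Fintype X] [Nonempty X] (B : X → Set (ℤ × ℤ))
    (hfin : ∀ x, (B x).Finite) (hne : ∀ x, (B x).Nonempty)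
    (hconn : ∀ x, ∀ p ∈ B x, ∀ q ∈ B x,
      Relation.ReflTransGen (fun a b => a ∈ B x ∧ b ∈ B x ∧ SideAdj a b) p q)
    (hdis : ∀ x y, x ≠ y → Disjoint (B x) (B y)) :
    ∃ (D : Type) (_ : Fintype D) (M : PlaneMap X D),
      ∀ x y, (∃ p ∈ B x, ∃ q ∈ B y, SideAdj p q) → M.Adj x y := by
  -- a box
  have hbox : ∃ N : ℕ, ∀ x, ∀ p ∈ B x, Box N p := by
    have hU : (⋃ x, B x).Finite := Set.finite_iUnion hfin
    let S := hU.toFinset
    refine ⟨(S.sup (fun p => p.1.natAbs + p.2.natAbs)), ?_⟩
    intro x p hp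
    have hpS : p ∈ S := by
      rw [Set.Finite.mem_toFinset, Set.mem_iUnion]
      exact ⟨x, hp⟩
    have h : p.1.natAbs + p.2.natAbs ≤ S.sup (fun p => p.1.natAbs + p.2.natAbs) :=
      Finset.le_sup (f := fun p : ℤ × ℤ => p.1.natAbs + p.2.natAbs) hpS
    constructor
    · rw [Int.abs_eq_natAbs]
      exact_mod_cast (Nat.le_add_right _ _).trans h
    · rw [Int.abs_eq_natAbs]
      exact_mod_cast (Nat.le_add_left _ _).trans h
  obtain ⟨N, hN⟩ := hbox
  let G := T.Grid99.grid (2 * N + 2) (2 * N)
  let g : (ZMod (2 * N + 2) × Fin (2 * N + 1)) → Option X := fun c =>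
    if h : ∃ x, ∃ p ∈ B x, emb N p = c then some h.choose else none
  have hg1 : ∀ x, ∀ p ∈ B x, g (emb N p) = some x := by
    intro x p hp
    have h : ∃ x, ∃ p' ∈ B x, emb N p' = emb N p := ⟨x, p, hp, rfl⟩
    have hgv : g (emb N p) = some h.choose := by
      simp only [g]
      rw [dif_pos h]
    rw [hgv]
    congr 1
    obtain ⟨p', hp', he⟩ := h.choose_spec
    have hpp : p' = p := emb_inj (hN _ _ hp') (hN _ _ hp) he
    by_contra hcon
    rw [hpp] at hp'
    exact Set.disjoint_left.1 (hdis _ _ hcon) hp' hp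
  have hg2 : ∀ c x, g c = some x → ∃ p ∈ B x, emb N p = c := by
    intro c x hc
    by_cases h : ∃ x, ∃ p ∈ B x, emb N p = c
    · have hgv : g c = some h.choose := by
        simp only [g]
        rw [dif_pos h]
      rw [hgv] at hc
      have := Option.some.inj hc
      have h2 := h.choose_spec
      rw [this] at h2
      exact h2
    · have hgv : g c = none := by
        simp only [g]
        rw [dif_neg h]
      rw [hgv] at hc
      exact absurd hc (by simp)
  obtain ⟨f, hf1, hf2⟩ := grow (X := X) G.Adj (fun a b h => adj_symm G h) (fun a b => G.conn a b)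
    _ g le_rfl (fun x => by
      obtain ⟨p, hp⟩ := hne x
      exact ⟨emb N p, hg1 x p hp⟩) (by
    intro x c c' h1 h2
    obtain ⟨p, hp, rfl⟩ := hg2 c x h1
    obtain ⟨q, hq, rfl⟩ := hg2 c' x h2
    have h := hconn x p hp q hq
    clear h2 hq
    induction h with
    | refl => exact Relation.ReflTransGen.refl
    | tail _ h2 ih =>
      exact Relation.ReflTransGen.tail ih ⟨emb_adj (hN x _ h2.1) (hN x _ h2.2.1) h2.2.2,
        hg1 x _ h2.1, hg1 x _ h2.2.1⟩)
  obtain ⟨M, _, _, hadj⟩ := Contract7.contract' G f (fun x => by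
    obtain ⟨p, hp⟩ := hne x
    exact ⟨emb N p, hf1 _ _ (hg1 x p hp)⟩) hf2
  refine ⟨_, inferInstance, M, ?_⟩
  rintro x y ⟨p, hp, q, hq, hpq⟩
  exact (hadj x y).2 ⟨emb N p, emb N q, hf1 _ _ (hg1 x p hp), hf1 _ _ (hg1 y q hq),
    emb_adj (hN x p hp) (hN y q hq) hpq⟩

end

end Pool.Agent.Lib.MP_1fca17_co.TOP.Planar7
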